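import Pool.Agent.H68.GHY.Targets

/-!
Row EID of the board ghy: invariance of the energy (after the row EIE of the board gu).
-/

namespace Pool.Agent.H23.GHY

open MeasureTheory Pool.Agent.H34.GM Pool.Agent.H34.GZ Pool.Agent.H34.GU Pool.Agent.H34.GA
open Pool.Agent.H68.GHY

lemma NL_right {m : ℕ} (x : ZM m) (u : (ZM m)ˣ) : NL (x * (u : ZM m)) = NL x := by
  unfold NL
  let f : ZM m → ((Fin m → ℤ) →+ (Fin m → ℤ)) := fun c =>
    { toFun := fun v => Matrix.vecMul v c
      map_zero' := Matrix.zero_vecMul c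
      map_add' := fun v w => Matrix.add_vecMul c v w }
  have hf : ∀ (c : ZM m) (v : Fin m → ℤ), f c v = Matrix.vecMul v c := fun c v => rfl
  have h1 : ∀ v, f (u : ZM m) (f ((u⁻¹ : (ZM m)ˣ) : ZM m) v) = v := by
    intro v
    rw [hf, hf, Matrix.vecMul_vecMul, Units.inv_mul, Matrix.vecMul_one]
  have h2 : ∀ v, f ((u⁻¹ : (ZM m)ˣ) : ZM m) (f (u : ZM m) v) = v := by
    intro v
    rw [hf, hf, Matrix.vecMul_vecMul, Units.mul_inv, Matrix.vecMul_one]
  have h3 : ∀ (c : ZM m) (y : ZM m) i, (y * c) i = f c (y i) := by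
    intro c y i
    rw [hf]
    funext j
    rfl
  refine Nat.card_congr
    { toFun := fun M => ⟨(M : AddSubgroup (Fin m → ℤ)).comap (f (u : ZM m)), ?_⟩
      invFun := fun M => ⟨(M : AddSubgroup (Fin m → ℤ)).comap (f ((u⁻¹ : (ZM m)ˣ) : ZM m)), ?_⟩
      left_inv := ?_
      right_inv := ?_ }
  · intro i
    rw [AddSubgroup.mem_comap, ← h3]
    exact M.2 i
  · intro i
    rw [AddSubgroup.mem_comap, h3, h2]
    exact M.2 i
  · intro M
    apply Subtype.ext
    ext v
    simp only [AddSubgroup.mem_comap]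
    rw [h1]
  · intro M
    apply Subtype.ext
    ext v
    simp only [AddSubgroup.mem_comap]
    rw [h2]

theorem pf_EID (hA : T_ALZ) (hB : T_ALU) : T_EID := by
  intro m q _ D d y x0 γ g hm1 hq hγ
  obtain ⟨⟨⟨-, hR⟩, hdet⟩, -, -, -, hun, -, -⟩ := hA m q hm1 hq
  obtain ⟨h1, hM, -, -, -, hbij⟩ := hB m q hm1 hq
  have hnu : γ.det.natAbs = 1 := (hun γ).1 hγ
  obtain ⟨u, rfl⟩ := hγ
  have hd1 : |(cR (u : ZM m)).det| = 1 := by
    rw [(hdet _).2, hnu]
    norm_num
  have hP : ∀ (x : VN m q) (h : Mat m) (w : VN m q), Kd d y x0 (cR (u : ZM m) * g) x h w =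
      Kd d y x0 g (ac q ((u⁻¹ : (ZM m)ˣ) : ZM m) x) h w := by
    intro x h w
    unfold Kd
    symm
    rw [← Equiv.tsum_eq (Units.mulRight u)]
    refine tsum_congr fun α => ?_
    have e0 : (Units.mulRight u) α = α * (u : ZM m) := rfl
    rw [e0]
    have e1 : ac q (α * (u : ZM m)) (ac q ((u⁻¹ : (ZM m)ˣ) : ZM m) x) = ac q α x := by
      rw [← (hM _ _ _).1, mul_assoc, Units.mul_inv, mul_one]
    have e2 : (α * (u : ZM m)).det.natAbs = α.det.natAbs := by
      rw [Matrix.det_mul, Int.natAbs_mul, hnu, mul_one]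
    have e3 : aN (cR (α * (u : ZM m))) = aN (cR α) := by
      unfold aN
      rw [(hR _ _).1, Matrix.det_mul, abs_mul, hd1, mul_one]
    have e4 : aN (cR (u : ZM m) * g) = aN g := by
      unfold aN
      rw [Matrix.det_mul, abs_mul, hd1, one_mul]
    have e5 : kk (aN (cR (α * (u : ZM m)))) h (cR (α * (u : ZM m))) g =
        kk (aN (cR α)) h (cR α) (cR (u : ZM m) * g) := by
      unfold kk
      rw [e3, e4, (hR _ _).1]
      simp only [mul_assoc]
    rw [e1, e2, e5, NL_right α u]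
  unfold Ed
  simp only [hP]
  exact (hbij _ (Units.isUnit _)).sum_comp fun x =>
    ∫⁻ k in D, ∑ z : VN m q, (Kd d y x0 g x (mt k) z) ^ 2 ∂(hm m)

end Pool.Agent.H23.GHY
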