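import Pool.Agent.H23.GA.All
import Pool.Agent.H11.GHY.DYD
import Pool.Agent.H13.GHY.CGB
import Pool.Agent.H14.GHY.GAL
import Pool.Agent.H14.GHY.HCP
import Pool.Agent.H16.GB.FEC
import Pool.Agent.H16.GHY.WR
import Pool.Agent.H23.GB.AFH
import Pool.Agent.H23.GB.ZLS
import Pool.Agent.H23.GHY.EID
import Pool.Agent.H31.GB.ZPE
import Pool.Agent.H34.GHY.GBW
import Pool.Agent.H35.GB.LMB
import Pool.Agent.H36.GHY.SQD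
import Pool.Agent.H37.GHY.CRD
import Pool.Agent.H49.GHY.KCD
import Pool.Agent.H5.GHY.VTH
import Pool.Agent.H54.GHY.LT4
import Pool.Agent.H55.GHY.HSD
import Pool.Agent.H55.GHY.TBS
import Pool.Agent.H61.GHY.LSD
import Pool.Agent.H69.GB.HYA
import Pool.Agent.H69.GHY.KMD
import Pool.Agent.H73.GHY.CLD
import Pool.Agent.H8.GA.CIF
import Pool.Agent.H80.GHY.OCD
import Pool.Agent.H83.GHY.ENG
import Pool.Agent.H84.GB.ZPB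
import Pool.Agent.H85.GHY.MSD
import Pool.Agent.H88.GHY.H2D
import Pool.Agent.H96.GHY.UNF

/-!
All rows of the board ghy: the hybrid fourth moment over the cuspidal representations of level N with
component at infinity of size at most P (MP_52e316_nt).
-/

namespace Pool.Agent.H23.GHY.All

theorem d_AFH : Pool.Agent.H23.GB.T_AFH :=
  Pool.Agent.H23.GB.pf_AFH

theorem d_ZPE : Pool.Agent.H23.GB.T_ZPE :=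
  Pool.Agent.H31.GB.pf_ZPE

theorem d_LMB : Pool.Agent.H23.GB.T_LMB :=
  Pool.Agent.H35.GB.pf_LMB Pool.Agent.H34.GZ.a_TNZ

theorem d_ZLS : Pool.Agent.H23.GB.T_ZLS :=
  Pool.Agent.H23.GB.pf_ZLS Pool.Agent.H23.GA.All.c_BIA

theorem d_ZPB : Pool.Agent.H23.GB.T_ZPB :=
  Pool.Agent.H84.GB.pf_ZPB Pool.Agent.H23.GA.All.c_UBD

theorem d_FEC : Pool.Agent.H23.GB.T_FEC :=
  Pool.Agent.H16.GB.pf_FEC Pool.Agent.H23.GA.All.c_PA1 Pool.Agent.H23.GA.All.c_PA2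

theorem c_CIF : Pool.Agent.H34.GA.T_CIF :=
  Pool.Agent.H8.GA.pf_CIF Pool.Agent.H34.GZ.g_MSR Pool.Agent.H34.GZ.a_VLM Pool.Agent.H23.GA.All.c_TEU

theorem d_HYA : Pool.Agent.H23.GB.T_HYA :=
  Pool.Agent.H69.GB.pf_HYA Pool.Agent.H34.GM.pf_PRF Pool.Agent.H34.GU.b_FR1 d_AFH d_ZPE d_LMB d_ZLS d_ZPB d_FEC Pool.Agent.H23.GA.All.c_MLZ Pool.Agent.H23.GA.All.c_ENA Pool.Agent.H23.GA.All.c_CNR c_CIF Pool.Agent.H23.GA.All.c_CFA Pool.Agent.H23.GA.All.c_CFB Pool.Agent.H23.GA.All.c_ZAD Pool.Agent.H23.GA.All.c_SMA Pool.Agent.H23.GA.All.c_PHB Pool.Agent.H23.GA.All.c_BIA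

theorem c_CGB : Pool.Agent.H68.GHY.T_CGB :=
  Pool.Agent.H13.GHY.pf_CGB Pool.Agent.H34.GZ.a_IDX

theorem c_KCD : Pool.Agent.H68.GHY.T_KCD :=
  Pool.Agent.H49.GHY.pf_KCD c_CGB

theorem c_KMD : Pool.Agent.H68.GHY.T_KMD :=
  Pool.Agent.H69.GHY.pf_KMD Pool.Agent.H34.GZ.g_MSR

theorem c_UNF : Pool.Agent.H68.GHY.T_UNF :=
  Pool.Agent.H96.GHY.pf_UNF Pool.Agent.H34.GZ.a_UNZ Pool.Agent.H23.GA.All.c_EZA Pool.Agent.H34.GU.b_ALU Pool.Agent.H34.GZ.a_ALZ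

theorem c_HCP : Pool.Agent.H68.GHY.T_HCP :=
  Pool.Agent.H14.GHY.pf_HCP Pool.Agent.H34.GZ.a_IDX Pool.Agent.H34.GU.b_ALU Pool.Agent.H34.GZ.a_ALZ

theorem c_OCD : Pool.Agent.H68.GHY.T_OCD :=
  Pool.Agent.H80.GHY.pf_OCD c_UNF c_HCP c_CGB c_KCD Pool.Agent.H23.GA.All.c_BIA Pool.Agent.H23.GA.All.c_RRA

theorem c_HSD : Pool.Agent.H68.GHY.T_HSD :=
  Pool.Agent.H55.GHY.pf_HSD Pool.Agent.H23.GA.All.c_BIA c_KCD c_KMD c_OCD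

theorem c_MSD : Pool.Agent.H68.GHY.T_MSD :=
  Pool.Agent.H85.GHY.pf_MSD Pool.Agent.H23.GA.All.c_APR Pool.Agent.H23.GA.All.c_OSA Pool.Agent.H23.GA.All.c_RRA Pool.Agent.H23.GA.All.c_RRN Pool.Agent.H23.GA.All.c_TBA Pool.Agent.H23.GA.All.c_BIA Pool.Agent.H34.GZ.a_RTI Pool.Agent.H34.GZ.a_DYM Pool.Agent.H34.GZ.a_VLM Pool.Agent.H34.GU.b_ALU Pool.Agent.H34.GZ.g_MSR Pool.Agent.H34.GZ.g_HAR

theorem c_VTH : Pool.Agent.H68.GHY.T_VTH :=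
  Pool.Agent.H5.GHY.pf_VTH Pool.Agent.H34.GZ.g_MSR Pool.Agent.H34.GZ.a_SHI

theorem c_CLD : Pool.Agent.H68.GHY.T_CLD :=
  Pool.Agent.H73.GHY.pf_CLD

theorem c_CNV : Pool.Agent.H68.GHY.T_CNV :=
  Pool.Agent.H16.GHY.pf_CNV Pool.Agent.H34.GZ.a_CNT Pool.Agent.H34.GU.b_KLI Pool.Agent.H34.GZ.a_IDX

theorem c_H2D : Pool.Agent.H68.GHY.T_H2D :=
  Pool.Agent.H88.GHY.pf_H2D Pool.Agent.H34.GZ.a_UNL c_VTH c_CLD c_CNV Pool.Agent.H34.GZ.a_CNT Pool.Agent.H34.GU.b_ALU Pool.Agent.H34.GZ.a_ALZ Pool.Agent.H34.GZ.a_IDX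

theorem c_EID : Pool.Agent.H68.GHY.T_EID :=
  Pool.Agent.H23.GHY.pf_EID Pool.Agent.H34.GZ.a_ALZ Pool.Agent.H34.GU.b_ALU

theorem c_EMD : Pool.Agent.H68.GHY.T_EMD :=
  Pool.Agent.H16.GHY.pf_EMD Pool.Agent.H34.GU.b_CNX Pool.Agent.H34.GZ.a_CNT Pool.Agent.H34.GZ.a_CMA Pool.Agent.H34.GZ.a_IDX Pool.Agent.H34.GZ.a_DAV Pool.Agent.H34.GZ.a_MUL

theorem c_ENG : Pool.Agent.H68.GHY.T_ENG :=
  Pool.Agent.H83.GHY.pf_ENG c_KMD c_H2D c_EID c_EMD Pool.Agent.H34.GU.b_KLI Pool.Agent.H34.GZ.a_VLM Pool.Agent.H34.GZ.a_SEX Pool.Agent.H34.GZ.a_DYM Pool.Agent.H34.GU.b_ALU Pool.Agent.H34.GZ.a_ALZ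

theorem c_TBS : Pool.Agent.H68.GHY.T_TBS :=
  Pool.Agent.H55.GHY.pf_TBS

theorem c_LSD : Pool.Agent.H68.GHY.T_LSD :=
  Pool.Agent.H61.GHY.pf_LSD Pool.Agent.H34.GM.pf_PRF c_HSD c_MSD c_ENG c_TBS Pool.Agent.H34.GZ.a_DYM

theorem c_GAL : Pool.Agent.H68.GHY.T_GAL :=
  Pool.Agent.H14.GHY.pf_GAL

theorem c_SQD : Pool.Agent.H68.GHY.T_SQD :=
  Pool.Agent.H36.GHY.pf_SQD

theorem c_LT4 : Pool.Agent.H68.GHY.T_LT4 :=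
  Pool.Agent.H54.GHY.pf_LT4 c_LSD c_GAL c_SQD

theorem c_DYD : Pool.Agent.H68.GHY.T_DYD :=
  Pool.Agent.H11.GHY.pf_DYD c_LT4

theorem c_CRD : Pool.Agent.H68.GHY.T_CRD :=
  Pool.Agent.H37.GHY.pf_CRD c_LT4

theorem c_GBW : Pool.Agent.H34.GHY.T_GBW :=
  Pool.Agent.H34.GHY.pf_GBW Pool.Agent.H23.GA.All.c_ENA d_HYA c_DYD c_CRD

end Pool.Agent.H23.GHY.All
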